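import Mathlib
import Pool.Agent.H.MP_e3a8c8_an.E

set_option autoImplicit false
open scoped ComplexOrder Matrix
open Pool.Agent.H.MP_e3a8c8_an

namespace Pool.Agent.Results.MP_1a2443_an.Holds

theorem result {X : Type*} (k l h : Matrix X X ℂ) (hk : k.PosSemidef) (hl : l.PosSemidef)
    (hh : h.PosSemidef) (hk0 : ∀ x, k x x ≠ 0) (hl0 : ∀ x, l x x ≠ 0) (hh0 : ∀ x, h x x ≠ 0)
    (hCP : CPpair k l) : CPpair k (Matrix.of fun x y => l x y * h x y) :=
  cp_of_cert hk (hl.hadamard hh) hk0 (cert_mul hl hh hl0 hh0 (cert_of_cp hk hl hl0 hCP))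

end Pool.Agent.Results.MP_1a2443_an.Holds
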